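import Mathlib

namespace Pool.Agent.H7.Abc

open NumberField IsDedekindDomain

variable {K : Type*} [Field K] [NumberField K]

/-- The exponent of `v` in `x`. -/
noncomputable def ord (v : HeightOneSpectrum (𝓞 K)) (x : K) : ℤ :=
  -(WithZero.log (v.valuation K x))

theorem one_lt_norm (v : HeightOneSpectrum (𝓞 K)) : (1 : ℝ) < Ideal.absNorm v.asIdeal := by
  exact_mod_cast NumberField.HeightOneSpectrum.one_lt_absNorm v

theorem two_le_norm (v : HeightOneSpectrum (𝓞 K)) : (2 : ℝ) ≤ Ideal.absNorm v.asIdeal := by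
  exact_mod_cast NumberField.HeightOneSpectrum.one_lt_absNorm v

theorem log_norm_pos (v : HeightOneSpectrum (𝓞 K)) :
    0 < Real.log (Ideal.absNorm v.asIdeal : ℝ) := Real.log_pos (one_lt_norm v)

theorem mk_eq_zpow (v : HeightOneSpectrum (𝓞 K)) {x : K} (hx : x ≠ 0) :
    FinitePlace.mk v x = (Ideal.absNorm v.asIdeal : ℝ) ^ (-ord v x) := by
  have hv : v.valuation K x ≠ 0 := (Valuation.ne_zero_iff _).2 hx
  rw [FinitePlace.mk_apply, FinitePlace.norm_embedding', ord, neg_neg]
  rw [WithZeroMulInt.toNNReal_neg_apply _ hv, WithZero.toAdd_unzero_eq_log]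
  push_cast
  rfl

theorem ord_eq_zero_iff (v : HeightOneSpectrum (𝓞 K)) {x : K} (hx : x ≠ 0) :
    ord v x = 0 ↔ FinitePlace.mk v x = 1 := by
  rw [mk_eq_zpow v hx]
  constructor
  · intro h; rw [h]; simp
  · intro h
    have := (zpow_eq_one_iff_right₀ (by positivity) (one_lt_norm v).ne').1 h
    omega

theorem log_mk (v : HeightOneSpectrum (𝓞 K)) {x : K} (hx : x ≠ 0) :
    Real.log (FinitePlace.mk v x) = -(ord v x : ℝ) * Real.log (Ideal.absNorm v.asIdeal : ℝ) := by
  rw [mk_eq_zpow v hx, Real.log_zpow]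
  push_cast
  ring

theorem ord_div (v : HeightOneSpectrum (𝓞 K)) {x y : K} (hx : x ≠ 0) (hy : y ≠ 0) :
    ord v (x / y) = ord v x - ord v y := by
  have hvx : v.valuation K x ≠ 0 := (Valuation.ne_zero_iff _).2 hx
  have hvy : v.valuation K y ≠ 0 := (Valuation.ne_zero_iff _).2 hy
  unfold ord
  rw [map_div₀, WithZero.log_div hvx hvy]
  ring

/-- The unnormalised logarithmic height. -/
noncomputable def hgt (x : K) : ℝ :=
  (∑ w : InfinitePlace K, (w.mult : ℝ) * Real.log (max 1 (w x))) +
    ∑ᶠ v : HeightOneSpectrum (𝓞 K), Real.log (max 1 (FinitePlace.mk v x))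

/-- The unnormalised conductor. -/
noncomputable def cnd (x : K) : ℝ :=
  ∑ᶠ v : HeightOneSpectrum (𝓞 K),
    (if FinitePlace.mk v x < 1 then Real.log (Ideal.absNorm v.asIdeal : ℝ) else 0)

theorem hgt_eq (x : K) : hgt x = Height.logHeight₁ x := by
  rw [NumberField.logHeight₁_eq, hgt]
  have h1 : ∀ t : ℝ, 0 ≤ t → Real.log (max 1 t) = Real.posLog t := by
    intro t ht
    rw [Real.posLog_eq_log_max_one ht]
  congr 1
  · refine Finset.sum_congr rfl fun w _ => ?_
    rw [h1 _ (apply_nonneg w x)]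
  · rw [← finsum_comp_equiv (FinitePlace.equivHeightOneSpectrum (K := K)).symm]
    refine finsum_congr fun v => ?_
    rw [h1 _ (apply_nonneg _ x)]
    rfl

theorem hgt_inv (x : K) : hgt x⁻¹ = hgt x := by
  rw [hgt_eq, hgt_eq, Height.logHeight₁_inv]

theorem hgt_sub_one (x : K) : hgt (x - 1) ≤ Module.finrank ℚ K * Real.log 2 + hgt x := by
  rw [hgt_eq, hgt_eq]
  have := Height.logHeight₁_sub_le x (1 : K)
  rw [Height.logHeight₁_one, NumberField.totalWeight_eq_finrank, add_zero] at this
  exact this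

theorem finite_support {x : K} (hx : x ≠ 0) :
    {v : HeightOneSpectrum (𝓞 K) | FinitePlace.mk v x ≠ 1}.Finite := by
  have h := FinitePlace.hasFiniteMulSupport hx
  have h2 : (Function.mulSupport fun w : FinitePlace K => w x).Finite := h
  refine (h2.image (FinitePlace.equivHeightOneSpectrum (K := K))).subset ?_
  intro v hv
  exact ⟨FinitePlace.mk v, hv, FinitePlace.maximalIdeal_mk v⟩

theorem finite_support_hgt {x : K} (hx : x ≠ 0) :
    (Function.support fun v : HeightOneSpectrum (𝓞 K) =>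
      Real.log (max 1 (FinitePlace.mk v x))).Finite := by
  refine (finite_support hx).subset ?_
  intro v hv h1
  apply hv
  simp only [h1, max_self, Real.log_one]

theorem finite_support_cnd {x : K} (hx : x ≠ 0) :
    (Function.support fun v : HeightOneSpectrum (𝓞 K) =>
      (if FinitePlace.mk v x < 1 then Real.log (Ideal.absNorm v.asIdeal : ℝ) else 0)).Finite := by
  refine (finite_support hx).subset ?_
  intro v hv h1
  apply hv
  simp only [h1, lt_irrefl, if_false]

theorem sum_le_finsum' {ι : Type*} {f : ι → ℝ} (hf : (Function.support f).Finite)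
    (h0 : ∀ i, 0 ≤ f i) (F : Finset ι) : ∑ i ∈ F, f i ≤ ∑ᶠ i, f i := by
  classical
  rw [finsum_eq_sum_of_support_subset (s := hf.toFinset ∪ F) f (by
    intro i hi
    simp only [Finset.coe_union, Set.Finite.coe_toFinset]
    exact Or.inl hi)]
  exact Finset.sum_le_sum_of_subset_of_nonneg Finset.subset_union_right (fun i _ _ => h0 i)

theorem log_max_nonneg (t : ℝ) : 0 ≤ Real.log (max 1 t) := Real.log_nonneg (le_max_left _ _)

theorem cnd_term_nonneg (x : K) (v : HeightOneSpectrum (𝓞 K)) :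
    0 ≤ (if FinitePlace.mk v x < 1 then Real.log (Ideal.absNorm v.asIdeal : ℝ) else 0) := by
  split_ifs
  · exact (log_norm_pos v).le
  · exact le_rfl

theorem cnd_nonneg (x : K) : 0 ≤ cnd x := finsum_nonneg fun v => cnd_term_nonneg x v

theorem hgt_nonneg (x : K) : 0 ≤ hgt x := by
  rw [hgt_eq]; exact Height.zero_le_logHeight₁ x

theorem sum_finite_le {x : K} (hx : x ≠ 0) (F : Finset (HeightOneSpectrum (𝓞 K))) :
    ∑ v ∈ F, Real.log (max 1 (FinitePlace.mk v x)) ≤ hgt x := by
  refine le_trans (sum_le_finsum' (finite_support_hgt hx) (fun v => log_max_nonneg _) F) ?_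
  unfold hgt
  have : 0 ≤ ∑ w : InfinitePlace K, (w.mult : ℝ) * Real.log (max 1 (w x)) :=
    Finset.sum_nonneg fun w _ => mul_nonneg (Nat.cast_nonneg _) (log_max_nonneg _)
  linarith

theorem mk_inv (v : HeightOneSpectrum (𝓞 K)) (x : K) :
    FinitePlace.mk v x⁻¹ = (FinitePlace.mk v x)⁻¹ := map_inv₀ _ _

theorem abs_ord_term (v : HeightOneSpectrum (𝓞 K)) {x : K} (hx : x ≠ 0) :
    |(ord v x : ℝ)| * Real.log (Ideal.absNorm v.asIdeal : ℝ) =
      Real.log (max 1 (FinitePlace.mk v x)) + Real.log (max 1 (FinitePlace.mk v x⁻¹)) := by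
  have hpos : 0 < FinitePlace.mk v x := FinitePlace.pos_iff.2 hx
  have hl := log_mk v hx
  have hN := log_norm_pos v
  rw [mk_inv]
  rcases le_total (FinitePlace.mk v x) 1 with h | h
  · have h1 : 1 ≤ (FinitePlace.mk v x)⁻¹ := (one_le_inv₀ hpos).2 h
    rw [max_eq_left h, max_eq_right h1, Real.log_one, Real.log_inv, hl]
    have : 0 ≤ (ord v x : ℝ) := by
      have := Real.log_nonpos hpos.le h
      rw [hl] at this
      by_contra hneg
      push Not at hneg
      nlinarith
    rw [abs_of_nonneg this]; ring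
  · have h1 : (FinitePlace.mk v x)⁻¹ ≤ 1 := inv_le_one_of_one_le₀ h
    rw [max_eq_right h, max_eq_left h1, Real.log_one, hl]
    have : (ord v x : ℝ) ≤ 0 := by
      have := Real.log_nonneg h
      rw [hl] at this
      by_contra hneg
      push Not at hneg
      nlinarith
    rw [abs_of_nonpos this]; ring

theorem sum_abs_ord_le {x : K} (hx : x ≠ 0) (F : Finset (HeightOneSpectrum (𝓞 K))) :
    ∑ v ∈ F, |(ord v x : ℝ)| * Real.log (Ideal.absNorm v.asIdeal : ℝ) ≤ 2 * hgt x := by
  rw [Finset.sum_congr rfl fun v _ => abs_ord_term v hx, Finset.sum_add_distrib]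
  have h1 := sum_finite_le hx F
  have h2 := sum_finite_le (inv_ne_zero hx) F
  rw [hgt_inv] at h2
  linarith

theorem cnd_add_cnd_inv_ge {x : K} (hx : x ≠ 0) (F : Finset (HeightOneSpectrum (𝓞 K))) :
    ∑ v ∈ F, (if ord v x = 0 then 0 else Real.log (Ideal.absNorm v.asIdeal : ℝ)) ≤
      cnd x + cnd x⁻¹ := by
  have h1 := sum_le_finsum' (finite_support_cnd hx) (cnd_term_nonneg x) F
  have h2 := sum_le_finsum' (finite_support_cnd (inv_ne_zero hx)) (cnd_term_nonneg x⁻¹) F
  refine le_trans ?_ (add_le_add h1 h2)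
  rw [← Finset.sum_add_distrib]
  refine Finset.sum_le_sum fun v _ => ?_
  have hpos : 0 < FinitePlace.mk v x := FinitePlace.pos_iff.2 hx
  have hN := log_norm_pos v
  rw [mk_inv]
  by_cases h0 : ord v x = 0
  · have := (ord_eq_zero_iff v hx).1 h0
    simp [h0, this]
  · have h3 : FinitePlace.mk v x ≠ 1 := fun h => h0 ((ord_eq_zero_iff v hx).2 h)
    rw [if_neg h0]
    rcases lt_or_gt_of_ne h3 with h | h
    · rw [if_pos h]
      have : 0 ≤ (if (FinitePlace.mk v x)⁻¹ < 1 then
        Real.log (Ideal.absNorm v.asIdeal : ℝ) else 0) := by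
        split_ifs
        · exact hN.le
        · exact le_rfl
      linarith
    · rw [if_neg (not_lt.2 h.le), if_pos (inv_lt_one_of_one_lt₀ h)]
      linarith

theorem abs_log_le_hgt {x : K} (hx : x ≠ 0) (w : InfinitePlace K) :
    |Real.log (w x)| ≤ hgt x := by
  have key : ∀ y : K, y ≠ 0 → Real.log (w y) ≤ hgt y := by
    intro y hy
    have hpos : 0 < w y := InfinitePlace.pos_iff.2 hy
    have h1 : Real.log (w y) ≤ Real.log (max 1 (w y)) :=
      Real.log_le_log hpos (le_max_right _ _)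
    have h2 : Real.log (max 1 (w y)) ≤ (w.mult : ℝ) * Real.log (max 1 (w y)) := by
      have : (1 : ℝ) ≤ w.mult := by exact_mod_cast w.mult_pos
      nlinarith [log_max_nonneg (w y)]
    have h3 : (w.mult : ℝ) * Real.log (max 1 (w y)) ≤
        ∑ w : InfinitePlace K, (w.mult : ℝ) * Real.log (max 1 (w y)) :=
      Finset.single_le_sum (f := fun w : InfinitePlace K =>
        (w.mult : ℝ) * Real.log (max 1 (w y)))
        (fun w _ => mul_nonneg (Nat.cast_nonneg _) (log_max_nonneg _)) (Finset.mem_univ w)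
    have h4 : 0 ≤ ∑ᶠ v : HeightOneSpectrum (𝓞 K), Real.log (max 1 (FinitePlace.mk v y)) :=
      finsum_nonneg fun v => log_max_nonneg _
    unfold hgt
    linarith
  rw [abs_le]
  constructor
  · have := key x⁻¹ (inv_ne_zero hx)
    rw [hgt_inv, map_inv₀, Real.log_inv] at this
    linarith
  · exact key x hx

/-- Elements with the same exponents and close archimedean logarithms. -/
theorem hgt_div_le {x y : K} (hx : x ≠ 0) (hy : y ≠ 0) (hord : ∀ v, ord v x = ord v y)
    (harch : ∀ w : InfinitePlace K, |Real.log (w x) - Real.log (w y)| ≤ 1) :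
    hgt (x / y) ≤ Module.finrank ℚ K := by
  have hxy : x / y ≠ 0 := div_ne_zero hx hy
  unfold hgt
  have h1 : ∑ᶠ v : HeightOneSpectrum (𝓞 K), Real.log (max 1 (FinitePlace.mk v (x / y))) = 0 := by
    rw [← finsum_zero (α := HeightOneSpectrum (𝓞 K)) (M := ℝ)]
    refine finsum_congr fun v => ?_
    have : ord v (x / y) = 0 := by rw [ord_div v hx hy, hord v, sub_self]
    rw [(ord_eq_zero_iff v hxy).1 this]
    simp
  rw [h1, add_zero]
  have h2 : ∀ w : InfinitePlace K, (w.mult : ℝ) * Real.log (max 1 (w (x / y))) ≤ w.mult := by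
    intro w
    have hwx : 0 < w x := InfinitePlace.pos_iff.2 hx
    have hwy : 0 < w y := InfinitePlace.pos_iff.2 hy
    have h3 : Real.log (max 1 (w (x / y))) ≤ 1 := by
      rcases le_total 1 (w (x / y)) with h | h
      · rw [max_eq_right h, map_div₀, Real.log_div hwx.ne' hwy.ne']
        exact (abs_le.1 (harch w)).2
      · rw [max_eq_left h, Real.log_one]; norm_num
    have : (0 : ℝ) ≤ w.mult := Nat.cast_nonneg _
    nlinarith
  refine le_trans (Finset.sum_le_sum fun w _ => h2 w) ?_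
  rw [← Nat.cast_sum, InfinitePlace.sum_mult_eq]

end Pool.Agent.H7.Abc
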