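import Mathlib

namespace Pool.Agent.H7.Abc

open NumberField IsDedekindDomain Filter Topology Asymptotics

theorem partial_sums (K : Type*) [Field K] [NumberField K] :
    (fun n : ℕ => ∑ k ∈ Finset.Icc 1 n, (Nat.card {I : Ideal (𝓞 K) // Ideal.absNorm I = k} : ℝ))
      =O[atTop] fun n => (n : ℝ) ^ (1 : ℝ) := by
  have h : Tendsto (fun n : ℕ => (∑ k ∈ Finset.Icc 1 n,
      (Nat.card {I : Ideal (𝓞 K) // Ideal.absNorm I = k} : ℝ)) / (n : ℝ)) atTop
      (𝓝 (dedekindZeta_residue K)) := by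
    refine ((Ideal.tendsto_norm_le_div_atTop₀ K).comp tendsto_natCast_atTop_atTop).congr
      fun n ↦ ?_
    simp only [Function.comp_apply, Nat.cast_le, ← Nat.cast_sum]
    congr
    rw [← add_left_inj 1, ← Ideal.card_norm_le_eq_card_norm_le_add_one,
      show Finset.Icc 1 n = Finset.Ioc 0 n from Finset.Icc_succ_left_eq_Ioc _ _,
      show 1 = Nat.card {I : Ideal (𝓞 K) // Ideal.absNorm I = 0} by
        simp [Ideal.absNorm_eq_zero_iff],
      Finset.sum_Ioc_add_eq_sum_Icc (n.zero_le),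
      ← Finset.card_preimage_eq_sum_card_image_eq
        (fun k _ ↦ Ideal.finite_setOfPred_absNorm_eq k)]
    simp [Set.coe_eq_subtype]
  have h2 := h.isBigO_one ℝ
  have h3 : (fun n : ℕ => (∑ k ∈ Finset.Icc 1 n,
      (Nat.card {I : Ideal (𝓞 K) // Ideal.absNorm I = k} : ℝ))) =ᶠ[atTop]
      fun n : ℕ => ((∑ k ∈ Finset.Icc 1 n,
      (Nat.card {I : Ideal (𝓞 K) // Ideal.absNorm I = k} : ℝ)) / (n : ℝ)) * (n : ℝ) ^ (1 : ℝ) := by
    filter_upwards [eventually_gt_atTop 0] with n hn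
    have : (n : ℝ) ≠ 0 := by exact_mod_cast hn.ne'
    rw [Real.rpow_one, div_mul_cancel₀ _ this]
  refine h3.trans_isBigO ?_
  have := h2.mul (isBigO_refl (fun n : ℕ => (n : ℝ) ^ (1 : ℝ)) atTop)
  simpa using this

theorem summable_norm (K : Type*) [Field K] [NumberField K] {σ : ℝ} (hσ : 1 < σ) :
    Summable (fun n : ℕ => (Nat.card {I : Ideal (𝓞 K) // Ideal.absNorm I = n} : ℝ) *
      (n : ℝ) ^ (-σ)) := by
  have h := LSeriesSummable_of_sum_norm_bigO_and_nonneg (partial_sums K)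
    (fun n => Nat.cast_nonneg _) zero_le_one (s := (σ : ℂ)) (by simpa using hσ)
  unfold LSeriesSummable at h
  have h2 := h.norm
  refine Summable.of_norm_bounded_eventually_nat h2 ?_
  filter_upwards [eventually_gt_atTop 0] with n hn
  rw [LSeries.norm_term_eq]
  have h0 : n ≠ 0 := hn.ne'
  simp only [h0, if_false, Complex.ofReal_natCast, Complex.norm_natCast, Complex.ofReal_re]
  rw [Real.norm_of_nonneg (by positivity), Real.rpow_neg (Nat.cast_nonneg n)]
  rfl

theorem exists_bound (K : Type*) [Field K] [NumberField K] {σ : ℝ} (hσ : 1 < σ) :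
    ∃ Z : ℝ, ∀ F : Finset (HeightOneSpectrum (𝓞 K)),
      ∑ v ∈ F, (Ideal.absNorm v.asIdeal : ℝ) ^ (-σ) ≤ Z := by
  classical
  refine ⟨∑' n : ℕ, (Nat.card {I : Ideal (𝓞 K) // Ideal.absNorm I = n} : ℝ) *
      (n : ℝ) ^ (-σ), fun F => ?_⟩
  have hmaps : ∀ v ∈ F, Ideal.absNorm v.asIdeal ∈ F.image (fun v => Ideal.absNorm v.asIdeal) :=
    fun v hv => Finset.mem_image_of_mem _ hv
  rw [← Finset.sum_fiberwise_of_maps_to hmaps]
  refine le_trans ?_ ((summable_norm K hσ).sum_le_tsum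
    (F.image (fun v => Ideal.absNorm v.asIdeal)) (fun n _ => by positivity))
  refine Finset.sum_le_sum fun n hn => ?_
  have h1 : ∑ v ∈ F with Ideal.absNorm v.asIdeal = n, (Ideal.absNorm v.asIdeal : ℝ) ^ (-σ) =
      ∑ v ∈ F with Ideal.absNorm v.asIdeal = n, (n : ℝ) ^ (-σ) := by
    refine Finset.sum_congr rfl fun v hv => ?_
    rw [(Finset.mem_filter.1 hv).2]
  rw [h1, Finset.sum_const, nsmul_eq_mul]
  refine mul_le_mul_of_nonneg_right ?_ (by positivity)
  have hfin : Finite {I : Ideal (𝓞 K) // Ideal.absNorm I = n} :=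
    Ideal.finite_setOfPred_absNorm_eq n
  have h2 : Nat.card {v // v ∈ F.filter (fun v => Ideal.absNorm v.asIdeal = n)} ≤
      Nat.card {I : Ideal (𝓞 K) // Ideal.absNorm I = n} := by
    refine Nat.card_le_card_of_injective (fun v => ⟨v.1.asIdeal, (Finset.mem_filter.1 v.2).2⟩) ?_
    intro a b hab
    have := congrArg Subtype.val hab
    exact Subtype.ext (HeightOneSpectrum.ext this)
  rw [Nat.card_eq_fintype_card, Fintype.card_coe] at h2
  exact_mod_cast h2

end Pool.Agent.H7.Abc
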