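import Mathlib
import Pool.Agent.H7.Abc.Height
import Pool.Agent.H7.Abc.Zeta

namespace Pool.Agent.H7.Abc

open NumberField IsDedekindDomain

theorem summable_pow_natAbs {q : ℝ} (h0 : 0 ≤ q) (h1 : q < 1) :
    Summable (fun k : ℤ => q ^ k.natAbs) := by
  refine Summable.of_nat_of_neg ?_ ?_
  · simpa using summable_geometric_of_lt_one h0 h1
  · simpa using summable_geometric_of_lt_one h0 h1

theorem finite_norm_le (K : Type*) [Field K] [NumberField K] (R : ℝ) :
    {v : HeightOneSpectrum (𝓞 K) | (Ideal.absNorm v.asIdeal : ℝ) ≤ R}.Finite := by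
  have h := Ideal.finite_setOfPred_absNorm_le (S := 𝓞 K) ⌊R⌋₊
  refine Set.Finite.of_finite_image (f := fun v : HeightOneSpectrum (𝓞 K) => v.asIdeal)
    (h.subset ?_) ?_
  · rintro _ ⟨v, hv, rfl⟩
    exact Nat.le_floor hv
  · intro v _ w _ h
    exact HeightOneSpectrum.ext h

/-- The Rankin weight at one place. -/
noncomputable def wt (σ δ N : ℝ) (k : ℤ) : ℝ :=
  if k = 0 then 1 else N ^ (-σ) * (N ^ (-δ)) ^ k.natAbs

theorem wt_nonneg {σ δ N : ℝ} (hN : 0 ≤ N) (k : ℤ) : 0 ≤ wt σ δ N k := by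
  unfold wt
  split_ifs
  · norm_num
  · positivity

/-- The sum of the weights at one place. -/
theorem sum_wt_le {σ δ N : ℝ} (hN : 2 ≤ N) (hδ : 0 < δ) (S : Finset ℤ) :
    ∑ k ∈ S, wt σ δ N k ≤
      1 + (∑' k : ℤ, ((2 : ℝ) ^ (-δ)) ^ k.natAbs) * N ^ (-σ) := by
  have hq0 : 0 ≤ (2 : ℝ) ^ (-δ) := by positivity
  have hq1 : (2 : ℝ) ^ (-δ) < 1 := Real.rpow_lt_one_of_one_lt_of_neg (by norm_num) (by linarith)
  have hNq : N ^ (-δ) ≤ (2 : ℝ) ^ (-δ) :=
    Real.rpow_le_rpow_of_nonpos (by norm_num) hN (by linarith)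
  have hN0 : 0 ≤ N ^ (-δ) := by positivity
  have hbound : ∀ k : ℤ, wt σ δ N k ≤
      (if k = 0 then 1 else 0) + N ^ (-σ) * ((2 : ℝ) ^ (-δ)) ^ k.natAbs := by
    intro k
    unfold wt
    split_ifs with h
    · have : 0 ≤ N ^ (-σ) * ((2 : ℝ) ^ (-δ)) ^ k.natAbs := by positivity
      linarith
    · rw [zero_add]
      exact mul_le_mul_of_nonneg_left (pow_le_pow_left₀ hN0 hNq _) (by positivity)
  refine le_trans (Finset.sum_le_sum fun k _ => hbound k) ?_
  rw [Finset.sum_add_distrib, ← Finset.mul_sum, mul_comm (∑' k : ℤ, _)]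
  refine add_le_add ?_ (mul_le_mul_of_nonneg_left
    ((summable_pow_natAbs hq0 hq1).sum_le_tsum S (fun k _ => by positivity)) (by positivity))
  rw [Finset.sum_ite_eq']
  split_ifs <;> norm_num

variable {K : Type*} [Field K] [NumberField K]

/-- Elements of bounded height with small radical of numerator and denominator. -/
def Small (K : Type*) [Field K] [NumberField K] (X R : ℝ) : Set K :=
  {x : K | x ≠ 0 ∧ hgt x ≤ X ∧ cnd x + cnd x⁻¹ ≤ R}

theorem small_finite (X R : ℝ) : (Small K X R).Finite := by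
  refine (NumberField.finite_setOfPred_logHeight₁_le K X).subset ?_
  rintro x ⟨-, h, -⟩
  rw [hgt_eq] at h
  exact h

theorem weight_ge {X R σ δ : ℝ} (hσ : 0 ≤ σ) (hδ : 0 ≤ δ) {x : K} (hx : x ∈ Small K X R)
    (F : Finset (HeightOneSpectrum (𝓞 K))) :
    Real.exp (-(σ * R + 2 * δ * X)) ≤
      ∏ v ∈ F, wt σ δ (Ideal.absNorm v.asIdeal : ℝ) (ord v x) := by
  obtain ⟨hx0, hX, hR⟩ := hx
  have h1 : ∀ v : HeightOneSpectrum (𝓞 K), wt σ δ (Ideal.absNorm v.asIdeal : ℝ) (ord v x) =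
      Real.exp (-(σ * (if ord v x = 0 then 0 else Real.log (Ideal.absNorm v.asIdeal : ℝ)) +
        δ * (|(ord v x : ℝ)| * Real.log (Ideal.absNorm v.asIdeal : ℝ)))) := by
    intro v
    have hN : (0 : ℝ) < Ideal.absNorm v.asIdeal := by linarith [one_lt_norm v]
    unfold wt
    split_ifs with h
    · simp [h]
    · rw [Real.rpow_def_of_pos hN, Real.rpow_def_of_pos hN, ← Real.exp_nat_mul, ← Real.exp_add]
      congr 1
      have : ((ord v x).natAbs : ℝ) = |(ord v x : ℝ)| := by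
        rw [Nat.cast_natAbs]; push_cast; rfl
      rw [this]
      ring
  rw [Finset.prod_congr rfl fun v _ => h1 v, ← Real.exp_sum]
  apply Real.exp_le_exp.2
  rw [Finset.sum_neg_distrib, Finset.sum_add_distrib, ← Finset.mul_sum, ← Finset.mul_sum]
  have h2 := le_trans (cnd_add_cnd_inv_ge hx0 F) hR
  have h3 := le_trans (sum_abs_ord_le hx0 F) (mul_le_mul_of_nonneg_left hX (by norm_num))
  have h4 := mul_le_mul_of_nonneg_left h2 hσ
  have h5 := mul_le_mul_of_nonneg_left h3 hδ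
  linarith

/-- The exponent vectors of the elements of `Small K X R`. -/
theorem card_ord_le {σ δ : ℝ} (hσ : 1 < σ) (hδ : 0 < δ) :
    ∃ C : ℝ, 0 < C ∧ ∀ (X R : ℝ) (S : Finset (HeightOneSpectrum (𝓞 K) → ℤ)),
      (∀ e ∈ S, ∃ x ∈ Small K X R, e = fun v => ord v x) →
        (S.card : ℝ) ≤ C * Real.exp (σ * R + 2 * δ * X) := by
  classical
  obtain ⟨Z, hZ⟩ := exists_bound K hσ
  set A : ℝ := ∑' k : ℤ, ((2 : ℝ) ^ (-δ)) ^ k.natAbs with hA
  have hA0 : 0 ≤ A := tsum_nonneg fun k => by positivity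
  refine ⟨Real.exp (A * Z), Real.exp_pos _, fun X R S hS => ?_⟩
  set F : Finset (HeightOneSpectrum (𝓞 K)) := (finite_norm_le K (Real.exp R)).toFinset with hF
  -- exponents vanish outside `F`
  have hout : ∀ e ∈ S, ∀ v, v ∉ F → e v = 0 := by
    intro e he v hv
    obtain ⟨x, hx, rfl⟩ := hS e he
    by_contra hne
    apply hv
    rw [hF, Set.Finite.mem_toFinset]
    have := le_trans (cnd_add_cnd_inv_ge hx.1 {v}) hx.2.2
    rw [Finset.sum_singleton, if_neg hne] at this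
    have hN : (0 : ℝ) < Ideal.absNorm v.asIdeal := by linarith [one_lt_norm v]
    have h2 := Real.exp_le_exp.2 this
    rw [Real.exp_log hN] at h2
    exact h2
  -- bound for the exponents
  obtain ⟨M, hM⟩ : ∃ M : Finset ℤ, ∀ e ∈ S, ∀ v, e v ∈ M := by
    refine ⟨S.biUnion (fun e => insert 0 (F.image e)), fun e he v => ?_⟩
    rw [Finset.mem_biUnion]
    refine ⟨e, he, ?_⟩
    by_cases hv : v ∈ F
    · exact Finset.mem_insert_of_mem (Finset.mem_image_of_mem _ hv)
    · rw [hout e he v hv]; exact Finset.mem_insert_self _ _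
  -- the product formula
  have hprod : ∑ e ∈ S, ∏ v ∈ F, wt σ δ (Ideal.absNorm v.asIdeal : ℝ) (e v) ≤
      ∏ v ∈ F, ∑ k ∈ M, wt σ δ (Ideal.absNorm v.asIdeal : ℝ) k := by
    rw [← Finset.prod_coe_sort F (fun v => ∑ k ∈ M, wt σ δ (Ideal.absNorm v.asIdeal : ℝ) k),
      ← Finset.sum_prod_piFinset]
    have h1 : ∀ e ∈ S, ∏ v ∈ F, wt σ δ (Ideal.absNorm v.asIdeal : ℝ) (e v) =
        ∏ v : F, wt σ δ (Ideal.absNorm v.1.asIdeal : ℝ) ((fun v : F => e v.1) v) :=
      fun e _ => (Finset.prod_coe_sort F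
        (fun v => wt σ δ (Ideal.absNorm v.asIdeal : ℝ) (e v))).symm
    rw [Finset.sum_congr rfl h1]
    have hinj : ∀ e ∈ S, ∀ e' ∈ S,
        (fun v : F => e v.1) = (fun v : F => e' v.1) → e = e' := by
      intro e he e' he' h
      funext v
      by_cases hv : v ∈ F
      · exact congrFun h ⟨v, hv⟩
      · rw [hout e he v hv, hout e' he' v hv]
    rw [← Finset.sum_image (s := S) (g := fun (e : HeightOneSpectrum (𝓞 K) → ℤ) =>
        (fun v : F => e v.1))
        (f := fun g => ∏ v : F, wt σ δ (Ideal.absNorm v.1.asIdeal : ℝ) (g v)) hinj]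
    refine Finset.sum_le_sum_of_subset_of_nonneg ?_ (fun g _ _ =>
      Finset.prod_nonneg fun v _ => wt_nonneg (Nat.cast_nonneg _) _)
    intro g hg
    obtain ⟨e, he, rfl⟩ := Finset.mem_image.1 hg
    exact Fintype.mem_piFinset.2 fun v => hM e he v.1
  have hbd : ∏ v ∈ F, ∑ k ∈ M, wt σ δ (Ideal.absNorm v.asIdeal : ℝ) k ≤ Real.exp (A * Z) := by
    have h1 : ∀ v ∈ F, ∑ k ∈ M, wt σ δ (Ideal.absNorm v.asIdeal : ℝ) k ≤
        Real.exp (A * (Ideal.absNorm v.asIdeal : ℝ) ^ (-σ)) := by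
      intro v _
      refine le_trans (sum_wt_le (two_le_norm v) hδ M) ?_
      rw [← hA, add_comm]
      exact Real.add_one_le_exp _
    refine le_trans (Finset.prod_le_prod (fun v _ => Finset.sum_nonneg fun k _ =>
      wt_nonneg (Nat.cast_nonneg _) _) h1) ?_
    rw [← Real.exp_sum, ← Finset.mul_sum]
    exact Real.exp_le_exp.2 (mul_le_mul_of_nonneg_left (hZ F) hA0)
  have hlow : (S.card : ℝ) * Real.exp (-(σ * R + 2 * δ * X)) ≤
      ∑ e ∈ S, ∏ v ∈ F, wt σ δ (Ideal.absNorm v.asIdeal : ℝ) (e v) := by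
    rw [← nsmul_eq_mul, ← Finset.sum_const]
    refine Finset.sum_le_sum fun e he => ?_
    obtain ⟨x, hx, rfl⟩ := hS e he
    exact weight_ge (by linarith) hδ.le hx F
  have h := le_trans (le_trans hlow hprod) hbd
  rw [Real.exp_neg, ← div_eq_mul_inv, div_le_iff₀ (Real.exp_pos _)] at h
  exact h

/-- The elements of `Small K X R` are few. -/
theorem card_small_le {σ δ : ℝ} (hσ : 1 < σ) (hδ : 0 < δ) :
    ∃ C : ℝ, 0 < C ∧ ∀ X R : ℝ, 0 ≤ X →
      ((Small K X R).ncard : ℝ) ≤ C * (2 * X + 4) ^ (Fintype.card (InfinitePlace K)) *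
        Real.exp (σ * R + 2 * δ * X) := by
  classical
  obtain ⟨C, hC, hCb⟩ := card_ord_le (K := K) hσ hδ
  set U : Finset K :=
    (NumberField.finite_setOfPred_logHeight₁_le K (Module.finrank ℚ K : ℝ)).toFinset with hU
  refine ⟨(U.card : ℝ) * C + 1, by positivity, fun X R hX => ?_⟩
  set T : Finset K := (small_finite (K := K) X R).toFinset with hT
  have hmem : ∀ x, x ∈ T ↔ x ∈ Small K X R := fun x => by rw [hT, Set.Finite.mem_toFinset]
  have hcard : (Small K X R).ncard = T.card := by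
    rw [hT, Set.ncard_eq_toFinset_card _ (small_finite (K := K) X R)]
  rw [hcard]
  -- the map
  set Φ : K → (HeightOneSpectrum (𝓞 K) → ℤ) × (InfinitePlace K → ℤ) :=
    fun x => (fun v => ord v x, fun w => ⌊Real.log (w x)⌋) with hΦ
  have hfib : ∀ b ∈ T.image Φ, (T.filter (fun x => Φ x = b)).card ≤ U.card := by
    intro b hb
    obtain ⟨y, hy, rfl⟩ := Finset.mem_image.1 hb
    have hy0 : y ≠ 0 := ((hmem y).1 hy).1
    refine Finset.card_le_card_of_injOn (fun x => x / y) ?_ ?_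
    · intro x hx
      have hx' := Finset.mem_filter.1 (Finset.mem_coe.1 hx)
      have hx0 : x ≠ 0 := ((hmem x).1 hx'.1).1
      have h1 : (fun v => ord v x) = (fun v => ord v y) := congrArg Prod.fst hx'.2
      have h2 : (fun w : InfinitePlace K => ⌊Real.log (w x)⌋) =
        (fun w : InfinitePlace K => ⌊Real.log (w y)⌋) := congrArg Prod.snd hx'.2
      rw [hU, Set.Finite.coe_toFinset]
      change Height.logHeight₁ (x / y) ≤ _
      rw [← hgt_eq]
      refine hgt_div_le hx0 hy0 (fun v => congrFun h1 v) (fun w => ?_)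
      exact (Int.abs_sub_lt_one_of_floor_eq_floor (congrFun h2 w)).le
    · intro x _ x' _ h
      simpa [div_left_inj' hy0] using h
  have h1 := Finset.card_le_mul_card_image T U.card hfib
  -- the image
  have h2 : (T.image Φ).card ≤ (T.image (fun x => fun v => ord v x)).card *
      (Fintype.piFinset (fun _ : InfinitePlace K => Finset.Icc (-⌈X⌉ - 1) ⌈X⌉)).card := by
    rw [← Finset.card_product]
    refine Finset.card_le_card ?_
    intro b hb
    obtain ⟨y, hy, rfl⟩ := Finset.mem_image.1 hb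
    rw [Finset.mem_product]
    refine ⟨Finset.mem_image_of_mem _ hy, ?_⟩
    rw [Fintype.mem_piFinset]
    intro w
    have hyS := (hmem y).1 hy
    have h3 := abs_le.1 (le_trans (abs_log_le_hgt hyS.1 w) hyS.2.1)
    rw [Finset.mem_Icc]
    constructor
    · apply Int.le_floor.2
      push_cast
      have := Int.le_ceil X
      linarith [h3.1]
    · have h4 : ((⌊Real.log (w y)⌋ : ℤ) : ℝ) ≤ ((⌈X⌉ : ℤ) : ℝ) :=
        le_trans (Int.floor_le _) (le_trans h3.2 (Int.le_ceil X))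
      exact_mod_cast h4
  have h3 : ((T.image (fun x => fun v => ord v x)).card : ℝ) ≤
      C * Real.exp (σ * R + 2 * δ * X) := by
    refine hCb X R _ ?_
    intro e he
    obtain ⟨x, hx, rfl⟩ := Finset.mem_image.1 he
    exact ⟨x, (hmem x).1 hx, rfl⟩
  have h4 : ((Fintype.piFinset (fun _ : InfinitePlace K => Finset.Icc (-⌈X⌉ - 1) ⌈X⌉)).card : ℝ) ≤
      (2 * X + 4) ^ (Fintype.card (InfinitePlace K)) := by
    rw [Fintype.card_piFinset, Finset.prod_const, Finset.card_univ, Nat.cast_pow]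
    refine pow_le_pow_left₀ (Nat.cast_nonneg _) ?_ _
    rw [Int.card_Icc]
    have hc : (0 : ℤ) ≤ ⌈X⌉ := Int.ceil_nonneg hX
    have e1 : (((⌈X⌉ + 1 - (-⌈X⌉ - 1)).toNat : ℕ) : ℝ) = 2 * (⌈X⌉ : ℝ) + 2 := by
      have : ((⌈X⌉ + 1 - (-⌈X⌉ - 1)).toNat : ℤ) = 2 * ⌈X⌉ + 2 := by
        rw [Int.toNat_of_nonneg (by omega)]; ring
      exact_mod_cast this
    rw [e1]
    have := Int.ceil_lt_add_one X
    linarith
  have h5 : (T.card : ℝ) ≤ (U.card : ℝ) * ((C * Real.exp (σ * R + 2 * δ * X)) *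
      (2 * X + 4) ^ (Fintype.card (InfinitePlace K))) := by
    refine le_trans (by exact_mod_cast h1 : (T.card : ℝ) ≤ (U.card : ℝ) * (T.image Φ).card) ?_
    refine mul_le_mul_of_nonneg_left ?_ (Nat.cast_nonneg _)
    have h2' : ((T.image Φ).card : ℝ) ≤ ((T.image (fun x => fun v => ord v x)).card : ℝ) *
      ((Fintype.piFinset (fun _ : InfinitePlace K => Finset.Icc (-⌈X⌉ - 1) ⌈X⌉)).card : ℝ) := by
      rw [← Nat.cast_mul]
      exact Nat.cast_le.2 h2
    exact le_trans h2' (mul_le_mul h3 h4 (Nat.cast_nonneg _) (by positivity))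
  refine le_trans h5 ?_
  have h6 : 0 ≤ (2 * X + 4) ^ (Fintype.card (InfinitePlace K)) * Real.exp (σ * R + 2 * δ * X) := by
    positivity
  nlinarith

end Pool.Agent.H7.Abc
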